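import Mathlib
import Pool.Agent.Helper562.QMetric

open Bundle Set Metric Filter Topology Manifold MeasureTheory
open scoped Manifold ContDiff ENNReal

noncomputable section

namespace Pool.Agent.Results.MP_3951d7_an.QuadricEnd

/-- A smooth Riemannian metric on the smooth manifold `M` of dimension `n`: a smooth family of
inner products on the tangent spaces of `M`. -/
abbrev SmoothMetric (n : ℕ) (M : Type) [TopologicalSpace M]
    [ChartedSpace (EuclideanSpace ℝ (Fin n)) M] [IsManifold (𝓡 n) ∞ M] :=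
  ContMDiffRiemannianMetric (𝓡 n) ∞ (EuclideanSpace ℝ (Fin n))
    (fun x : M => TangentSpace (𝓡 n) x)

/-- The distance of `M` is the Riemannian distance of the smooth Riemannian metric `g`, that is
the infimum of the `g`-lengths of the `C^1` paths between two points. -/
def DistIsRiemannian {n : ℕ} {M : Type} [MetricSpace M]
    [ChartedSpace (EuclideanSpace ℝ (Fin n)) M] [IsManifold (𝓡 n) ∞ M]
    (g : SmoothMetric n M) : Prop :=
  letI : RiemannianBundle (fun x : M => TangentSpace (𝓡 n) x) := ⟨g.toRiemannianMetric⟩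
  IsRiemannianManifold (𝓡 n) M

/-- The punctured open ball of radius `r` about the origin. -/
def puncturedBall (n : ℕ) (r : ℝ) : Set (EuclideanSpace ℝ (Fin n)) := {x | 0 < ‖x‖ ∧ ‖x‖ < r}

/-- The linear dilatation of `f` at `x`: the limsup, as `t` decreases to `0`, of the quotient of
the largest and of the smallest distance of `f (x + h)` and `f x` over all `h` of norm `t`. -/
def linDil {n : ℕ} {M : Type} [MetricSpace M] (f : EuclideanSpace ℝ (Fin n) → M)
    (x : EuclideanSpace ℝ (Fin n)) : ℝ≥0∞ :=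
  limsup (fun t : ℝ =>
    (⨆ h ∈ sphere (0 : EuclideanSpace ℝ (Fin n)) t, edist (f (x + h)) (f x)) /
      (⨅ h ∈ sphere (0 : EuclideanSpace ℝ (Fin n)) t, edist (f (x + h)) (f x))) (𝓝[>] 0)

/-- The coefficient of quasiconformality `k(r)` of `f` in the annulus `r < |x| < r₀`. -/
def qcCoeff {n : ℕ} {M : Type} [MetricSpace M] (f : EuclideanSpace ℝ (Fin n) → M)
    (r₀ r : ℝ) : ℝ≥0∞ :=
  ⨆ x ∈ {x : EuclideanSpace ℝ (Fin n) | r < ‖x‖ ∧ ‖x‖ < r₀}, linDil f x

/-- The integral of `1 / (r k(r))` diverges at `r = 0`. -/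
def DivergesAtZero {n : ℕ} {M : Type} [MetricSpace M] (f : EuclideanSpace ℝ (Fin n) → M)
    (r₀ : ℝ) : Prop :=
  ∀ ε ∈ Ioo 0 r₀, ∫⁻ r in Ioo 0 ε, (ENNReal.ofReal r * qcCoeff f r₀ r)⁻¹ = ⊤

/-- The singularity of `f` at the origin is removable: on some punctured ball `f` is injective
and either extends to a homeomorphism of the full ball onto an open subset of `M`, or leaves
every compact subset of `M` as `x` tends to `0`. -/
def Removable {n : ℕ} {M : Type} [MetricSpace M] (f : EuclideanSpace ℝ (Fin n) → M)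
    (r₀ : ℝ) : Prop :=
  ∃ ρ ∈ Ioo 0 r₀, InjOn f (puncturedBall n ρ) ∧
    ((∃ e : OpenPartialHomeomorph (EuclideanSpace ℝ (Fin n)) M,
        e.source = ball 0 ρ ∧ EqOn e f (puncturedBall n ρ)) ∨
      (∀ K : Set M, IsCompact K → ∀ᶠ x in 𝓝[≠] (0 : EuclideanSpace ℝ (Fin n)), f x ∉ K))

lemma lintegral_inv_eq_top {ε : ℝ} (hε : 0 < ε) :
    ∫⁻ r in Ioo 0 ε, ENNReal.ofReal r⁻¹ = ⊤ := by
  by_contra h
  have h1 : IntegrableOn (fun x : ℝ => x ^ (-1 : ℝ)) (Ioo 0 ε) := by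
    have hm : Measurable (fun x : ℝ => x ^ (-1 : ℝ)) := by fun_prop
    refine ⟨hm.aestronglyMeasurable, ?_⟩
    rw [hasFiniteIntegral_iff_enorm]
    have e : ∫⁻ a in Ioo 0 ε, ‖a ^ (-1 : ℝ)‖ₑ = ∫⁻ r in Ioo 0 ε, ENNReal.ofReal r⁻¹ := by
      apply setLIntegral_congr_fun measurableSet_Ioo
      intro r hr
      have hr0 : (0 : ℝ) < r := hr.1
      change ‖r ^ (-1 : ℝ)‖ₑ = ENNReal.ofReal r⁻¹
      rw [Real.rpow_neg_one, Real.enorm_eq_ofReal (by positivity)]
    rw [e]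
    exact lt_top_iff_ne_top.2 h
  rw [intervalIntegral.integrableOn_Ioo_rpow_iff hε] at h1
  exact lt_irrefl _ h1

open Pool.Agent.Helper562.Quad

lemma ratio {x : E4} (hx : x ≠ 0) (hx1 : ‖x‖ < 1) : ∀ᶠ t : ℝ in 𝓝[>] 0,
    1 ≤ (⨆ h ∈ sphere (0 : E4) t, mQ.toPseudoMetricSpace.toPseudoEMetricSpace.edist
      (f (x + h)) (f x)) / (⨅ h ∈ sphere (0 : E4) t,
      mQ.toPseudoMetricSpace.toPseudoEMetricSpace.edist (f (x + h)) (f x)) ∧
    (⨆ h ∈ sphere (0 : E4) t, mQ.toPseudoMetricSpace.toPseudoEMetricSpace.edist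
      (f (x + h)) (f x)) / (⨅ h ∈ sphere (0 : E4) t,
      mQ.toPseudoMetricSpace.toPseudoEMetricSpace.edist (f (x + h)) (f x)) ≤ 3 := by
  have hpos : 0 < ‖x‖ := norm_pos_iff.2 hx
  obtain ⟨δ, hδ, hup⟩ := ev_upper hx hx1
  have hlow := ev_lower hx hx1
  rw [Metric.eventually_nhds_iff_ball] at hlow
  obtain ⟨δ', hδ', hlow⟩ := hlow
  set C : ℝ := 17 / 20 * (‖x‖ ^ 3)⁻¹ with hC
  have hCpos : 0 < C := by positivity
  have hC3 : 51 / 20 * (‖x‖ ^ 3)⁻¹ = 3 * C := by rw [hC]; ring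
  have hmin : 0 < min δ δ' := lt_min hδ hδ'
  filter_upwards [Ioo_mem_nhdsGT hmin] with t ht
  have ht0 : 0 < t := ht.1
  have htδ : t < δ := ht.2.trans_le (min_le_left _ _)
  have htδ' : t < δ' := ht.2.trans_le (min_le_right _ _)
  have hnum : (⨆ h ∈ sphere (0 : E4) t, mQ.toPseudoMetricSpace.toPseudoEMetricSpace.edist
      (f (x + h)) (f x)) ≤ ENNReal.ofReal (3 * C * t) := by
    apply iSup₂_le
    intro h hh
    have hht : ‖h‖ = t := by simpa using hh
    rw [mQ.toPseudoMetricSpace.toPseudoEMetricSpace.edist_comm, edist_mQ]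
    have hball : ∀ s ∈ Icc (0 : ℝ) 1, x + s • h ∈ ball x δ := by
      intro s hs
      rw [mem_ball, dist_eq_norm, add_sub_cancel_left, norm_smul, hht]
      have : ‖s‖ ≤ 1 := by
        rw [Real.norm_eq_abs, abs_of_nonneg hs.1]; exact hs.2
      nlinarith
    rw [← hht]
    apply Pool.Agent.Helper562.Quad.upper (by positivity)
    · intro s hs
      exact (hup _ (hball s hs)).1
    · intro s hs
      apply norm_fderiv_le_of_lip' ℝ (by positivity)
      filter_upwards [isOpen_ball.mem_nhds (hball s hs)] with z hz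
      have := (hup _ (hball s hs)).2 z hz
      rw [hC3] at this
      exact this
  have hden : ENNReal.ofReal (C * t) ≤ (⨅ h ∈ sphere (0 : E4) t,
      mQ.toPseudoMetricSpace.toPseudoEMetricSpace.edist (f (x + h)) (f x)) := by
    apply le_iInf₂
    intro h hh
    have hht : ‖h‖ = t := by simpa using hh
    rw [edist_mQ]
    refine le_trans ?_ (lower _ _)
    rw [edist_eq_enorm_sub, ← ofReal_norm]
    apply ENNReal.ofReal_le_ofReal
    have := hlow (x + h) (by rw [mem_ball, dist_eq_norm, add_sub_cancel_left, hht]; exact htδ')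
    rw [add_sub_cancel_left, hht] at this
    exact this
  constructor
  · obtain ⟨h, hh⟩ : (sphere (0 : E4) t).Nonempty := NormedSpace.sphere_nonempty.2 ht0.le
    have hle : (⨅ h ∈ sphere (0 : E4) t,
        mQ.toPseudoMetricSpace.toPseudoEMetricSpace.edist (f (x + h)) (f x)) ≤
        (⨆ h ∈ sphere (0 : E4) t, mQ.toPseudoMetricSpace.toPseudoEMetricSpace.edist
      (f (x + h)) (f x)) := (iInf₂_le h hh).trans (le_iSup₂_of_le h hh le_rfl)
    have h0 : (⨅ h ∈ sphere (0 : E4) t,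
        mQ.toPseudoMetricSpace.toPseudoEMetricSpace.edist (f (x + h)) (f x)) ≠ 0 := by
      have : 0 < ENNReal.ofReal (C * t) := ENNReal.ofReal_pos.2 (by positivity)
      exact (this.trans_le hden).ne'
    have htop : (⨅ h ∈ sphere (0 : E4) t,
        mQ.toPseudoMetricSpace.toPseudoEMetricSpace.edist (f (x + h)) (f x)) ≠ ⊤ :=
      ((hle.trans hnum).trans_lt ENNReal.ofReal_lt_top).ne
    rw [ENNReal.le_div_iff_mul_le (Or.inl h0) (Or.inl htop), one_mul]
    exact hle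
  calc _ ≤ ENNReal.ofReal (3 * C * t) / ENNReal.ofReal (C * t) := ENNReal.div_le_div hnum hden
    _ = 3 := by
      rw [← ENNReal.ofReal_div_of_pos (by positivity),
        show 3 * C * t / (C * t) = 3 by field_simp]
      norm_num

lemma linDil_le {x : E4} (hx : x ≠ 0) (hx1 : ‖x‖ < 1) :
    @linDil 4 Q mQ f x ≤ 3 :=
  limsup_le_of_le (by isBoundedDefault) ((ratio hx hx1).mono fun t ht => ht.2)

lemma one_le_linDil {x : E4} (hx : x ≠ 0) (hx1 : ‖x‖ < 1) :
    1 ≤ @linDil 4 Q mQ f x :=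
  le_limsup_of_frequently_le ((ratio hx hx1).mono fun t ht => ht.1).frequently
    (by isBoundedDefault)

lemma qcCoeff_le {r : ℝ} (hr : r ∈ Ioo (0 : ℝ) 1) : @qcCoeff 4 Q mQ f 1 r ≤ 3 := by
  apply iSup₂_le
  rintro x ⟨h1, h2⟩
  have hx : x ≠ 0 := by
    rw [← norm_pos_iff]; exact hr.1.trans h1
  exact linDil_le hx h2

lemma one_le_qcCoeff {r : ℝ} (hr : r ∈ Ioo (0 : ℝ) 1) : 1 ≤ @qcCoeff 4 Q mQ f 1 r := by
  let x : E4 := EuclideanSpace.single 0 ((1 + r) / 2)
  have hx : ‖x‖ = (1 + r) / 2 := by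
    rw [show ‖x‖ = ‖(1 + r) / 2‖ from PiLp.norm_single 2 _ _ _, Real.norm_eq_abs]
    exact abs_of_pos (by linarith [hr.1])
  have hx0 : x ≠ 0 := by
    rw [← norm_pos_iff, hx]; linarith [hr.1]
  have hx1 : ‖x‖ < 1 := by rw [hx]; linarith [hr.2]
  refine (one_le_linDil hx0 hx1).trans ?_
  exact le_iSup₂_of_le (f := fun (y : E4) (_ : y ∈ {y : E4 | r < ‖y‖ ∧ ‖y‖ < 1}) =>
    @linDil 4 Q mQ f y) x ⟨by rw [hx]; linarith [hr.2], hx1⟩ le_rfl

lemma diverges : @DivergesAtZero 4 Q mQ f 1 := by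
  intro ε hε
  rw [eq_top_iff]
  have h1 : (3 : ℝ≥0∞)⁻¹ * ∫⁻ r in Ioo 0 ε, ENNReal.ofReal r⁻¹ = ⊤ := by
    rw [lintegral_inv_eq_top hε.1]
    exact ENNReal.mul_top (by simp)
  rw [← h1, ← lintegral_const_mul' _ _ (by simp)]
  apply setLIntegral_mono' measurableSet_Ioo
  intro r hr
  have hr1 : r ∈ Ioo (0 : ℝ) 1 := ⟨hr.1, hr.2.trans hε.2⟩
  rw [ENNReal.ofReal_inv_of_pos hr.1, ← ENNReal.mul_inv (by simp) (by simp), mul_comm (3 : ℝ≥0∞)]
  apply ENNReal.inv_le_inv.2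
  gcongr
  exact qcCoeff_le hr1

lemma not_injOn {ρ : ℝ} (hρ : ρ ∈ Ioo (0 : ℝ) 1) : ¬ InjOn f (puncturedBall 4 ρ) := by
  intro h
  let x : E4 := EuclideanSpace.single 0 (ρ / 2)
  have hρ0 : 0 < ρ := hρ.1
  have hx : ‖x‖ = ρ / 2 := by
    rw [show ‖x‖ = ‖ρ / 2‖ from PiLp.norm_single 2 _ _ _, Real.norm_eq_abs]
    exact abs_of_pos (by linarith)
  have h1 : x ∈ puncturedBall 4 ρ := by
    constructor
    · rw [hx]; linarith
    · rw [hx]; linarith
  have h2 : -x ∈ puncturedBall 4 ρ := by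
    constructor
    · rw [norm_neg, hx]; linarith
    · rw [norm_neg, hx]; linarith
  have h3 := h h2 h1 (f_neg x)
  have h5 : (2 : ℝ) • x = 0 := by
    rw [two_smul]
    nth_rewrite 1 [← h3]
    exact neg_add_cancel x
  have h4 : x = 0 := by
    rcases smul_eq_zero.1 h5 with h | h
    · norm_num at h
    · exact h
  rw [h4, norm_zero] at hx
  linarith

lemma distIs {n : ℕ} {M : Type} [MetricSpace M]
    [ChartedSpace (EuclideanSpace ℝ (Fin n)) M] [IsManifold (𝓡 n) ∞ M] (g : SmoothMetric n M)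
    (h : letI : RiemannianBundle (fun x : M => TangentSpace (𝓡 n) x) := ⟨g.toRiemannianMetric⟩
      ∀ x y : M, edist x y = riemannianEDist (𝓡 n) x y) : DistIsRiemannian g := by
  unfold DistIsRiemannian
  let _ : RiemannianBundle (fun x : M => TangentSpace (𝓡 n) x) := ⟨g.toRiemannianMetric⟩
  exact IsRiemannianManifold.mk h

lemma distQ : @DistIsRiemannian 4 Q mQ _ _ gQ := by
  apply @distIs 4 Q mQ _ _ gQ
  intro x y
  rfl

theorem result : ∃ (M : Type) (_ : MetricSpace M)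
    (_ : ChartedSpace (EuclideanSpace ℝ (Fin 4)) M) (_ : IsManifold (𝓡 4) ∞ M)
    (g : SmoothMetric 4 M), DistIsRiemannian g ∧ SimplyConnectedSpace M ∧
      SecondCountableTopology M ∧ CompleteSpace M ∧
      ∃ f : EuclideanSpace ℝ (Fin 4) → M, IsLocalHomeomorphOn f (puncturedBall 4 1) ∧
        (∀ r ∈ Ioo (0 : ℝ) 1, 1 ≤ qcCoeff f 1 r ∧ qcCoeff f 1 r ≤ 3) ∧ DivergesAtZero f 1 ∧
        (∀ ρ ∈ Ioo (0 : ℝ) 1, ¬ InjOn f (puncturedBall 4 ρ)) ∧ ¬ Removable f 1 := by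
  refine ⟨Q, mQ, inferInstance, inferInstance, gQ, distQ, inferInstance,
    inferInstance, completeQ, f, localHomeo, fun r hr => ⟨one_le_qcCoeff hr, qcCoeff_le hr⟩, diverges,
    fun ρ hρ => not_injOn hρ, ?_⟩
  rintro ⟨ρ, hρ, h, -⟩
  exact not_injOn hρ h

end Pool.Agent.Results.MP_3951d7_an.QuadricEnd
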